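import Pool.Agent.SRG.Nd
import Pool.Agent.SNT.All2

/-!
# SRG, module Win (helper64): the window of level `m`, `h ≥ 2`, all finite abelian groups
-/

set_option autoImplicit false

noncomputable section

open Finset Pool.Agent.Helper64.Rho
open scoped Classical Pointwise

namespace Pool.Agent.SRG

open Pool.Agent.SDG Pool.Agent.SNW Pool.Agent.SNR

theorem win_num (h l x : ℕ) (hh : 1 ≤ h) (hl : 1 ≤ l) (hx : h * (l - 1) + 1 ≤ x) :
    l * cf (2 * (h * l)) (x + h - h * l) ≤ cf (2 * h) x + gr h l x := by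
  obtain ⟨b, rfl⟩ : ∃ b, l = b + 1 := ⟨l - 1, by omega⟩
  rw [Nat.add_sub_cancel] at hx
  have e1 : h * (b + 1) = h * b + h := by ring
  have hgr : gr h (b + 1) x = min b (x - (2 * h - 1) * b) := by
    unfold gr
    rw [Nat.add_sub_cancel]
  rcases Nat.lt_or_ge x (2 * h * b) with h1 | h1
  · have h2 : x + h - h * (b + 1) = x - h * b := by omega
    have h3 : cf (2 * (h * (b + 1))) (x - h * b) = 1 + (x - h * b) := by
      apply W2_lin
      · rw [e1]
        omega
      · rw [e1]
        have : 2 * h * b = 2 * (h * b) := by ring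
        omega
    rw [h2, h3]
    obtain ⟨s, rfl⟩ : ∃ s, x = h * b + s := ⟨x - h * b, by omega⟩
    rw [Nat.add_sub_cancel_left]
    have ht := W2_tan h (b : ℕ) (h * b + s) hh
    obtain ⟨d, rfl⟩ : ∃ d, h = d + 1 := ⟨h - 1, by omega⟩
    have e2 : 2 * (d + 1) - 1 = 2 * d + 1 := by omega
    rw [e2] at hgr
    have key : (b + 1) * (1 + s) + (2 * d + 1) * b ≤
        cf (2 * (d + 1)) ((d + 1) * b + s) + ((d + 1) * b + s) := by
      zify
      push_cast at ht
      nlinarith
    rcases Nat.lt_or_ge ((d + 1) * b + s) ((2 * d + 1) * b) with h4 | h4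
    · omega
    · have h5 : gr (d + 1) (b + 1) ((d + 1) * b + s) = ((d + 1) * b + s) - (2 * d + 1) * b := by
        rw [hgr]
        apply min_eq_right
        have : 2 * (d + 1) * b = (2 * d + 1) * b + b := by ring
        omega
      omega
  · have h2 := W2_upper h (b + 1) x hh hl (by omega)
    have h5 : gr h (b + 1) x = b := by
      rw [hgr]
      apply min_eq_left
      obtain ⟨d, rfl⟩ : ∃ d, h = d + 1 := ⟨h - 1, by omega⟩
      have e2 : 2 * (d + 1) - 1 = 2 * d + 1 := by omega
      rw [e2]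
      have : 2 * (d + 1) * b = (2 * d + 1) * b + b := by ring
      omega
    omega

/-- **the gain at level `m`**, `h ≥ 2`, all finite abelian groups -/
theorem all_Nd (h : ℕ) (hh : 2 ≤ h) (l t m : ℕ) (hm : 1 ≤ m) : NdSt h l t m :=
  thm_NdSt (fun G _ _ hnc => Pool.Agent.SNT.all_M1Pr G hnc) h hh l t m hm

/-- **the window of level `m`**, `h ≥ 2` (`SNV.St_WmR`) -/
theorem all_WmR :
    ∀ (G ι : Type) [AddCommGroup G] [Finite G] (h m : ℕ) (s : Finset ι) (f : ι → G) (H : AddSubgroup G), 2 ≤ h → 1 ≤ m →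
    (∀ i ∈ s, f i ≠ 0) → Cap (2 * h) s f → Aper (FS s f) → gen s f = ⊤ →
      GR m (⊥ : AddSubgroup G) (FS s f).card → m < crk (⊥ : AddSubgroup G) → crk H = m →
        (∀ L : AddSubgroup G, crk L = m → Nat.card H ≤ Nat.card L) → Nat.card H * 2 ^ m ≤ (FS s f).card →
          h * (Nat.card H - 1) + m ≤ s.card →
            2 ^ (m - 1) * (Nat.card H * cf (2 * (h * Nat.card H)) (s.card + 1 + h - m - h * Nat.card H)) ≤
              (FS s f).card := by
  intro G ι _ _ h m s f H hh hm h0 hcap hA hg hG hr hH hmin hcl ht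
  have h1 := all_Nd h hh (Nat.card H) s.card m hm G ι s f rfl h0 hcap hA hg hG hr (by
    intro L hL
    rcases Nat.lt_or_ge (crk L) m with h2 | h2
    · have h3 := hG L bot_le h2
      have h4 : Nat.card L * 2 ^ crk L ≤ Nat.card L * 2 ^ m :=
        Nat.mul_le_mul_left _ (Nat.pow_le_pow_right (by norm_num) h2.le)
      have h5 : Nat.card H * 2 ^ m < Nat.card L * 2 ^ m := by omega
      exact (Nat.lt_of_mul_lt_mul_right h5).le
    · exact hmin L (by omega))
  refine le_trans (Nat.mul_le_mul_left _ ?_) h1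
  have hl : 1 ≤ Nat.card H := Nat.card_pos
  have h2 := win_num h (Nat.card H) (s.card + 1 - m) (by omega) hl (by omega)
  have h3 : s.card + 1 + h - m - h * Nat.card H = (s.card + 1 - m) + h - h * Nat.card H := by omega
  rw [h3]
  exact h2

end Pool.Agent.SRG
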