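import Pool.Agent.SRG.Defs

/-!
# SRG, module Base (helper64): level one, `h ≥ 2`
-/

set_option autoImplicit false

noncomputable section

open Finset Pool.Agent.Helper64.Rho Pool.Agent.SDG Pool.Agent.SNW
open scoped Classical Pointwise

namespace Pool.Agent.SRG

theorem base_q (h b t q : ℕ) (hh : 2 ≤ h) (ht : (2 * h - 1) * b + 1 ≤ t) (hq : t ≤ h * q) :
    3 * b + 1 ≤ 2 * q := by
  obtain ⟨a, rfl⟩ : ∃ a, h = a + 2 := ⟨h - 2, by omega⟩
  have e1 : 2 * (a + 2) - 1 = 2 * a + 3 := by omega
  rw [e1] at ht
  by_contra hcon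
  push Not at hcon
  have h1 : 2 * ((2 * a + 3) * b + 1) ≤ (a + 2) * (2 * q) := by nlinarith
  have h2 : (a + 2) * (2 * q) ≤ (a + 2) * (3 * b) := Nat.mul_le_mul_left _ (by omega)
  nlinarith [Nat.zero_le (a * b)]

theorem base_e (h b t q : ℕ) (hh : 2 ≤ h) (ht : (2 * h - 1) * b + 1 ≤ t) (hq : t ≤ h * q) :
    min b (t - (2 * h - 1) * b) + cf 2 q ≤ min (pn q) (cf 2 q + b) ∧
      min b (t - (2 * h - 1) * b) + jj q ≤ cf 4 (q - 1) := by
  have h1 := base_q h b t q hh ht hq
  have hm1 : min b (t - (2 * h - 1) * b) ≤ b := min_le_left _ _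
  have hm2 : min b (t - (2 * h - 1) * b) ≤ t - (2 * h - 1) * b := min_le_right _ _
  have hmb := min_eq_left_iff (a := b) (b := t - (2 * h - 1) * b)
  generalize min b (t - (2 * h - 1) * b) = g at hm1 hm2 hmb ⊢
  by_cases hq8 : 8 ≤ q
  · have h2 : (q - 1) + jj q ≤ cf 4 (q - 1) := by
      rcases Nat.lt_or_ge q 9 with h3 | h3
      · have : q = 8 := by omega
        subst this
        simp [cf, jj, Finset.sum_range_succ]
      · have h4 := (thm_Nm2 thm_Nm1).2 (q - 1)
        unfold jj
        obtain ⟨b, rfl⟩ : ∃ b, q = b + 9 := ⟨q - 9, by omega⟩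
        have h5 : b + 9 - 1 = b + 8 := by omega
        rw [h5] at h4 ⊢
        have h6 : 2 * ((b + 9 + 1) / 2) ≤ b + 10 := by omega
        nlinarith
    have h3 := W2_pn q (by omega) (by omega) (by omega)
    refine ⟨le_min (by omega) (by omega), by omega⟩
  · have c0 : cf 4 0 = 1 := by simp [cf]
    have c1 : cf 4 1 = 2 := by simp [cf, Finset.sum_range_succ]
    have c2 : cf 4 2 = 3 := by simp [cf, Finset.sum_range_succ]
    have c3 : cf 4 3 = 4 := by simp [cf, Finset.sum_range_succ]
    have c4 : cf 4 4 = 5 := by simp [cf, Finset.sum_range_succ]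
    have c5 : cf 4 5 = 7 := by simp [cf, Finset.sum_range_succ]
    have c6 : cf 4 6 = 9 := by simp [cf, Finset.sum_range_succ]
    have hq57 : q = 5 → g ≤ 2 := by
      intro h5
      subst h5
      by_contra hcon
      push Not at hcon
      have hb : b = 3 := by omega
      subst hb
      have : h = 2 := by omega
      subst this
      omega
    have : q = 0 ∨ q = 1 ∨ q = 2 ∨ q = 3 ∨ q = 4 ∨ q = 5 ∨ q = 6 ∨ q = 7 := by omega
    rcases this with rfl | rfl | rfl | rfl | rfl | rfl | rfl | rfl
    · omega
    · have hb : b = 0 := by omega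
      subst hb
      have hg : g = 0 := by omega
      subst hg
      simp [pn, cf, jj, Finset.sum_range_succ]
    · have hb : b ≤ 1 := by omega
      refine ⟨le_min ?_ (by omega), ?_⟩
      · simp only [pn, cf, Finset.sum_range_succ, Finset.sum_range_zero]
        norm_num
        omega
      · simp only [jj, cf, Finset.sum_range_succ, Finset.sum_range_zero]
        norm_num
        omega
    · have hb : b ≤ 1 := by omega
      refine ⟨le_min ?_ (by omega), ?_⟩
      · simp only [pn, cf, Finset.sum_range_succ, Finset.sum_range_zero]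
        norm_num
        omega
      · simp only [jj, cf, Finset.sum_range_succ, Finset.sum_range_zero]
        norm_num
        omega
    · have hb : b ≤ 2 := by omega
      refine ⟨le_min ?_ (by omega), ?_⟩
      · simp only [pn, cf, Finset.sum_range_succ, Finset.sum_range_zero]
        norm_num
        omega
      · simp only [jj, cf, Finset.sum_range_succ, Finset.sum_range_zero]
        norm_num
        omega
    · have hb := hq57 rfl
      refine ⟨le_min ?_ (by omega), ?_⟩
      · simp only [pn, cf, Finset.sum_range_succ, Finset.sum_range_zero]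
        norm_num
        omega
      · simp only [jj, cf, Finset.sum_range_succ, Finset.sum_range_zero]
        norm_num
        omega
    · have hb : b ≤ 3 := by omega
      refine ⟨le_min ?_ (by omega), ?_⟩
      · simp only [pn, cf, Finset.sum_range_succ, Finset.sum_range_zero]
        norm_num
        omega
      · simp only [jj, cf, Finset.sum_range_succ, Finset.sum_range_zero]
        norm_num
        omega
    · have hb : b ≤ 4 := by omega
      refine ⟨le_min ?_ (by omega), ?_⟩
      · simp only [pn, cf, Finset.sum_range_succ, Finset.sum_range_zero]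
        norm_num
        omega
      · simp only [jj, cf, Finset.sum_range_succ, Finset.sum_range_zero]
        norm_num
        omega

/-- level one -/
theorem base1 (G ι : Type) [AddCommGroup G] [Finite G] (l : ℕ) (hM : M1P G (l - 1)) (h : ℕ)
    (hh : 2 ≤ h) (s : Finset ι) (f : ι → G) (hf : ∀ i ∈ s, f i ≠ 0) (hcap : Cap (2 * h) s f)
    (hap : Aper (FS s f)) (hgs : gen s f = ⊤) :
    cf (2 * h) s.card + gr h l s.card ≤ (FS s f).card := by
  by_cases ht : s.card ≤ (2 * h - 1) * (l - 1)
  · have h1 : gr h l s.card = 0 := by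
      unfold gr
      rw [Nat.sub_eq_zero_of_le ht, Nat.min_zero]
    rw [h1, add_zero]
    exact (all_main s.card).2 h hh G ι s f rfl hf hcap (W2_Aper _ _ _ _ hap)
  push Not at ht
  obtain ⟨c, hc, hv⟩ := W2_col h hh G ι s f hf hcap hap
  have : NeZero h := ⟨by omega⟩
  obtain ⟨k, hk⟩ := Finite.exists_max fun l : Fin h => (s.filter fun i => c i = l).card
  obtain ⟨q, hq⟩ : ∃ q, q = (s.filter fun i => c i = k).card := ⟨_, rfl⟩
  have hsz := W2_size s c
  have hle : s.card ≤ h * q := by
    rw [← hsz, hq]
    calc ∑ l : Fin h, (s.filter fun i => c i = l).card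
        ≤ ∑ _l : Fin h, (s.filter fun i => c i = k).card := Finset.sum_le_sum fun l _ => hk l
      _ = h * (s.filter fun i => c i = k).card := by
          rw [Finset.sum_const, Finset.card_univ, Fintype.card_fin, smul_eq_mul]
  have hq1 : 1 ≤ q := by
    rcases Nat.eq_zero_or_pos q with h1 | h1
    · rw [h1, mul_zero] at hle
      omega
    · exact h1
  obtain ⟨g1, g2⟩ := base_e h (l - 1) s.card q hh ht hle
  have hgr : gr h l s.card = min (l - 1) (s.card - (2 * h - 1) * (l - 1)) := rfl
  rw [← hgr] at g1 g2
  by_cases hall : ∀ l, gen (s.filter fun i => c i = l) f = ⊤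
  · obtain ⟨X, hX1, hX2⟩ := W2_A G ι (l - 1) hM h hh s f hf hap c hc hv k hk
      (by rw [← hq]; exact hq1) hall
    rw [← hq] at hX1 hX2
    omega
  · push Not at hall
    obtain ⟨m, hm⟩ := hall
    have h1 := W2_B G ι h hh s f hf hap hgs c hc hv q (fun l => by rw [hq]; exact hk l)
      (fun l => by rw [hq]; exact hc.2 k l) m hm
    omega

end Pool.Agent.SRG
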