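import Pool.Agent.SNR.Lm
import Pool.Agent.SNW.W2
import Pool.Agent.SNW.Eq

/-!
# SRG: the gain at level `m` (MP_ec93d3_co, helper64)

`gr h l x = min (l - 1) (x - (2h-1)(l-1))`; theorem `ND`: for `h ≥ 2` a family of `t` nonzero elements, cap `2h`, generating `K`, with an
aperiodic set of sums `T` of level at least `m`, rank `K ≥ m + 1`, `l ≤ |H|` for all `H` with `rank (K / H) ≤ m`:
`|T| ≥ 2^(m-1) (c(h, x) + gr h l x)`, `x = t + 1 - m`.
-/

set_option autoImplicit false

noncomputable section

open Finset Pool.Agent.Helper64.Rho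
open scoped Classical Pointwise

namespace Pool.Agent.SRG

/-- the gain -/
def gr (h l x : ℕ) : ℕ := min (l - 1) (x - (2 * h - 1) * (l - 1))

end Pool.Agent.SRG
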