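import Pool.Agent.SRG.Num

/-!
# SRG, module Num2 (helper64): numbers, `h ≥ 2`, the three cases
-/

set_option autoImplicit false

noncomputable section

open Finset Pool.Agent.SDG Pool.Agent.SNW

namespace Pool.Agent.SRG

theorem numIa (h a r g σ w k Y : ℕ) (hh : 2 ≤ h) (hr : 1 ≤ r) (hr2 : r ≤ 2 * h)
    (hph : Ph h a r g σ) (hw : 3 ≤ w) (hwW : w ≤ 2 * σ + 1) (hk : k + w = 2 * h * a + r + 2)
    (hk1 : 1 ≤ k) (hY : cf (2 * h) k ≤ Y) (hY2 : 2 * k ≤ Y + 1) (hk2 : k ≤ 2 → 4 ≤ Y ∧ k = 2) :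
    2 * (1 + (a + 1) * (h * a + r) + g) ≤ w * Y := by
  have hq := cf_quad h k (by omega)
  have hq' : 4 * h + k * (k + 2 * h) ≤ 4 * h * Y := hq.trans (Nat.mul_le_mul_left _ hY)
  by_cases hbig : 4 ≤ a ∨ 3 ≤ h
  · have h1 := quadI h a r g σ w k Y (by exact_mod_cast hh) (by positivity) (by exact_mod_cast hr)
      (by exact_mod_cast hr2) (by
        rcases hph with ⟨h1, h2, h3⟩ | ⟨h1, h2, h3⟩
        · left
          refine ⟨by exact_mod_cast h1, by exact_mod_cast h2, by exact_mod_cast h3⟩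
        · right
          refine ⟨by exact_mod_cast h1, by exact_mod_cast h2, by exact_mod_cast h3⟩)
      (by
        rcases hbig with h1 | h1
        · left; exact_mod_cast h1
        · right; exact_mod_cast h1) (by exact_mod_cast hw) (by exact_mod_cast hwW)
      (by exact_mod_cast hk) (by exact_mod_cast hq')
    exact_mod_cast h1
  · push Not at hbig
    obtain ⟨h1, h2⟩ := hbig
    obtain rfl : h = 2 := by omega
    clear hq hY
    rcases hph with ⟨rfl, h3, h4⟩ | ⟨rfl, h3, h4⟩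
    · interval_cases a <;> interval_cases r <;> interval_cases w <;>
        first
          | omega
          | (simp only [Nat.reduceMul, Nat.reduceAdd] at hk
             obtain rfl : k = _ := Nat.add_right_cancel hk
             omega)
    · interval_cases a <;> interval_cases r <;> first
        | omega
        | (interval_cases w <;>
            first
            | omega
            | (simp only [Nat.reduceMul, Nat.reduceAdd] at hk
               obtain rfl : k = _ := Nat.add_right_cancel hk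
               omega))

theorem numIb (h a r g σ w k Y : ℕ) (hh : 2 ≤ h) (hr : 1 ≤ r) (hr2 : r ≤ 2 * h)
    (hph : Ph h a r g σ) (hw : 3 ≤ w) (hwW : w ≤ σ + 1) (hk : k + w = 2 * h * a + r + 2)
    (hY : cf (2 * h) k ≤ Y) (hY2 : k + 1 ≤ Y) :
    2 * (1 + (a + 1) * (h * a + r) + g) ≤ w * Y ∨ (h = 2 ∧ a = 1 ∧ r = 1 ∧ k = 4 ∧ g = 1 ∧ σ = 2) := by
  have hq := cf_quad h k (by omega)
  have hq' : 4 * h + k * (k + 2 * h) ≤ 4 * h * Y := hq.trans (Nat.mul_le_mul_left _ hY)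
  by_cases hbig : 4 ≤ a ∨ 3 ≤ h
  · left
    have h1 := quadI h a r g σ w k Y (by exact_mod_cast hh) (by positivity) (by exact_mod_cast hr)
      (by exact_mod_cast hr2) (by
        rcases hph with ⟨h1, h2, h3⟩ | ⟨h1, h2, h3⟩
        · left
          refine ⟨by exact_mod_cast h1, by exact_mod_cast h2, by exact_mod_cast h3⟩
        · right
          refine ⟨by exact_mod_cast h1, by exact_mod_cast h2, by exact_mod_cast h3⟩)
      (by
        rcases hbig with h1 | h1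
        · left; exact_mod_cast h1
        · right; exact_mod_cast h1) (by exact_mod_cast hw) (by
          have : w ≤ 2 * σ + 1 := by omega
          exact_mod_cast this)
      (by exact_mod_cast hk) (by exact_mod_cast hq')
    exact_mod_cast h1
  · push Not at hbig
    obtain ⟨h1, h2⟩ := hbig
    obtain rfl : h = 2 := by omega
    clear hq hY
    rcases hph with ⟨rfl, h3, h4⟩ | ⟨rfl, h3, h4⟩
    · interval_cases a <;> interval_cases r <;> interval_cases w <;>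
        first
          | omega
          | (simp only [Nat.reduceMul, Nat.reduceAdd] at hk
             obtain rfl : k = _ := Nat.add_right_cancel hk
             omega)
    · interval_cases a <;> interval_cases r <;> first
        | omega
        | (interval_cases w <;>
            first
            | omega
            | (simp only [Nat.reduceMul, Nat.reduceAdd] at hk
               obtain rfl : k = _ := Nat.add_right_cancel hk
               omega))

/-- case II, small `D` -/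
theorem numIIa (h a r g σ D Y c : ℤ) (hh : 2 ≤ h) (ha : 0 ≤ a) (hr : 1 ≤ r) (hr2 : r ≤ 2 * h)
    (hph : (σ = a + 1 ∧ g ≤ a ∧ 1 ≤ a) ∨ (σ = a + 2 ∧ g + 2 * h ≤ a + 1 + r ∧ 1 ≤ g))
    (hD : 2 ≤ D) (hDσ : D ≤ σ - 1) (hc : c = 1 + (a + 1) * (h * a + r)) (hY : c - (a + 1) * D ≤ Y) :
    2 * (c + g) ≤ (2 * D + 1) * Y := by
  have h1 : (2 * D + 1) * (c - (a + 1) * D) ≤ (2 * D + 1) * Y :=
    mul_le_mul_of_nonneg_left hY (by linarith)
  refine le_trans ?_ h1
  obtain ⟨u, hu⟩ : ∃ u, u = h * a + r := ⟨_, rfl⟩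
  rw [← hu] at hc
  have hu1 : 2 * a + 1 ≤ u := by nlinarith
  subst hc
  rcases hph with ⟨rfl, hg, ha1⟩ | ⟨rfl, hg, hg1⟩
  · obtain ⟨b, rfl⟩ : ∃ b, a = D + b := ⟨a - D, by ring⟩
    obtain ⟨e, rfl⟩ : ∃ e, D = 2 + e := ⟨D - 2, by ring⟩
    have hb : 0 ≤ b := by linarith
    have he : 0 ≤ e := by linarith
    nlinarith [mul_nonneg hb he, mul_nonneg he he, mul_nonneg hb hb,
      mul_nonneg (mul_nonneg hb he) he, mul_nonneg (mul_nonneg hb hb) he,
      mul_nonneg (mul_nonneg he he) he,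
      mul_nonneg (mul_nonneg (show (0 : ℤ) ≤ 2 * (2 + e) - 1 by linarith)
        (show (0 : ℤ) ≤ 2 + e + b + 1 by linarith))
        (show (0 : ℤ) ≤ u - (2 * (2 + e + b) + 1) by linarith)]
  · have hu2 : a + 4 ≤ u := by nlinarith
    obtain ⟨b, rfl⟩ : ∃ b, a = D - 1 + b := ⟨a - D + 1, by ring⟩
    obtain ⟨e, rfl⟩ : ∃ e, D = 2 + e := ⟨D - 2, by ring⟩
    have hb : 0 ≤ b := by linarith
    have he : 0 ≤ e := by linarith
    have hg' : g ≤ 2 + e - 1 + b + 1 := by linarith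
    have key : (2 + e) * (2 * (2 + e) + 1) + 2 ≤ (2 * (2 + e) - 1) * u := by
      rcases eq_or_lt_of_le he with h2 | h2
      · rw [← h2]
        nlinarith
      · have h3 : 1 ≤ e := by omega
        nlinarith [mul_nonneg (show (0 : ℤ) ≤ 2 * (2 + e) - 1 by linarith)
          (show (0 : ℤ) ≤ u - (2 * (2 + e - 1 + b) + 1) by linarith), mul_nonneg hb he]
    nlinarith [mul_nonneg (show (0 : ℤ) ≤ 2 + e - 1 + b + 1 by linarith)
      (show (0 : ℤ) ≤ (2 * (2 + e) - 1) * u - ((2 + e) * (2 * (2 + e) + 1) + 2) by linarith)]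

/-- case II, large `D`, `a = 0` -/
theorem numIIb (h D k Y : ℤ) (hh : 2 ≤ h) (hD : 2 ≤ D) (hk : 1 ≤ k) (hkD : k + D = 2 * h)
    (hY : k + 1 ≤ Y) : 2 * (2 * h + 2) ≤ (2 * D + 1) * Y := by
  have h1 : (2 * D + 1) * (k + 1) ≤ (2 * D + 1) * Y := mul_le_mul_of_nonneg_left hY (by linarith)
  nlinarith [mul_nonneg (show (0 : ℤ) ≤ D - 2 by linarith) (show (0 : ℤ) ≤ k - 1 by linarith)]

/-- case II, large `D`, `Y ≥ a + 1` -/
theorem numIIc (h a r σ A D k Y u : ℤ) (hh : 2 ≤ h) (ha : 1 ≤ a) (hr : 1 ≤ r) (hr2 : r ≤ 2 * h)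
    (hu : u = h * a + r) (hph : (σ = a + 1 ∧ A ≤ (a + 1) * (u + 1)) ∨
      (σ = a + 2 ∧ A ≤ (a + 1) * (u + 1) + 1))
    (hkD : k + D = 2 * h * a + r) (hDσ : σ ≤ D) (hY : k + 1 ≤ Y) (hYa : a + 1 ≤ Y) :
    2 * A ≤ (2 * D + 1) * Y := by
  have hua : 2 * a + 1 ≤ u := by nlinarith
  rcases le_or_gt (u + 1) Y with h1 | h1
  · have h2 : (2 * σ + 1) * (u + 1) ≤ (2 * D + 1) * Y :=
      mul_le_mul (by linarith) h1 (by linarith) (by
        rcases hph with ⟨rfl, -⟩ | ⟨rfl, -⟩ <;> linarith)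
    rcases hph with ⟨rfl, hA⟩ | ⟨rfl, hA⟩ <;> nlinarith
  · obtain ⟨i, rfl⟩ : ∃ i, Y = a + 1 + i := ⟨Y - a - 1, by ring⟩
    obtain ⟨j, hj⟩ : ∃ j, u = a + 1 + i + j := ⟨u - a - 1 - i, by ring⟩
    have hi : 0 ≤ i := by linarith
    have hj0 : 0 ≤ j := by linarith
    have h2 : 2 * j + 2 * h * a + 3 ≤ 2 * D + 1 := by nlinarith
    have h3 : (2 * j + 2 * h * a + 3) * (a + 1 + i) ≤ (2 * D + 1) * (a + 1 + i) :=
      mul_le_mul_of_nonneg_right h2 (by linarith)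
    have h4 : 2 * A ≤ 2 * ((a + 1) * (u + 1)) + 2 := by
      rcases hph with ⟨-, hA⟩ | ⟨-, hA⟩ <;> linarith
    refine h4.trans (le_trans ?_ h3)
    rw [hj]
    have h5 : 2 * a ≤ h * a := mul_le_mul_of_nonneg_right hh (by linarith)
    nlinarith [mul_nonneg hi hj0, mul_nonneg hi (show (0 : ℤ) ≤ h * a - 2 * a by linarith),
      mul_nonneg (show (0 : ℤ) ≤ a + 1 by linarith) (show (0 : ℤ) ≤ h * a - 2 * a by linarith),
      mul_nonneg hi (show (0 : ℤ) ≤ a by linarith)]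

/-- case II, large `D`, `Y ≤ a`: the polynomials -/
theorem numIId (h a r σ A Y : ℤ) (hh : 2 ≤ h) (hr : 1 ≤ r)
    (hph : (σ = a + 1 ∧ A ≤ 1 + (a + 1) * (h * a + r) + a) ∨
      (σ = a + 2 ∧ A ≤ 1 + (a + 1) * (h * a + r) + (a + 1 + r - 2 * h))) (hY : 2 ≤ Y) (hYa : Y ≤ a) :
    0 ≤ (2 * (2 * h * a + r) + 3 - 2 * Y - 2 * σ) * Y *
      (1 + (a + 1) * (h * a + r) + 2 * σ * Y) - 4 * σ * (Y + 1) * (A - σ * Y) := by
  obtain ⟨d, rfl⟩ : ∃ d, h = d + 2 := ⟨h - 2, by ring⟩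
  obtain ⟨b, rfl⟩ : ∃ b, a = Y + b := ⟨a - Y, by ring⟩
  obtain ⟨Z, rfl⟩ : ∃ Z, Y = Z + 2 := ⟨Y - 2, by ring⟩
  obtain ⟨q, rfl⟩ : ∃ q, r = q + 1 := ⟨r - 1, by ring⟩
  have hd : 0 ≤ d := by linarith
  have hb : 0 ≤ b := by linarith
  have hZ : 0 ≤ Z := by linarith
  have hq : 0 ≤ q := by linarith
  rcases hph with ⟨rfl, hA⟩ | ⟨rfl, hA⟩
  · obtain ⟨v, hv⟩ : ∃ v, v = 1 + (Z + 2 + b + 1) * ((d + 2) * (Z + 2 + b) + (q + 1)) +
      (Z + 2 + b) - A := ⟨_, rfl⟩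
    have hv0 : 0 ≤ v := by linarith
    obtain rfl : A = 1 + (Z + 2 + b + 1) * ((d + 2) * (Z + 2 + b) + (q + 1)) +
      (Z + 2 + b) - v := by linarith
    ring_nf
    positivity
  · obtain ⟨v, hv⟩ : ∃ v, v = 1 + (Z + 2 + b + 1) * ((d + 2) * (Z + 2 + b) + (q + 1)) +
      (Z + 2 + b + 1 + (q + 1) - 2 * (d + 2)) - A := ⟨_, rfl⟩
    have hv0 : 0 ≤ v := by linarith
    obtain rfl : A = 1 + (Z + 2 + b + 1) * ((d + 2) * (Z + 2 + b) + (q + 1)) +
      (Z + 2 + b + 1 + (q + 1) - 2 * (d + 2)) - v := by linarith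
    rcases eq_or_lt_of_le hq with h1 | h1
    · subst h1
      ring_nf
      positivity
    · obtain ⟨p, rfl⟩ : ∃ p, q = p + 1 := ⟨q - 1, by ring⟩
      have hp : 0 ≤ p := by omega
      ring_nf
      positivity

/-- **case II** -/
theorem numII (h a r g σ D k Y y : ℤ) (hh : 2 ≤ h) (ha : 0 ≤ a) (hr : 1 ≤ r) (hr2 : r ≤ 2 * h)
    (hph : (σ = a + 1 ∧ g ≤ a ∧ 1 ≤ a) ∨ (σ = a + 2 ∧ g + 2 * h ≤ a + 1 + r ∧ 1 ≤ g))
    (hD : 2 ≤ D) (hk : 1 ≤ k) (hkD : k + D = 2 * h * a + r) (hY : k + 1 ≤ Y)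
    (hY2 : 1 + (a + 1) * (h * a + r) - (a + 1) * D ≤ Y)
    (h1 : y * (2 * D + 1) < 2 * (1 + (a + 1) * (h * a + r) + g) + 2 * σ * (y - Y))
    (h2 : (1 + (a + 1) * (h * a + r)) * Y + 2 * σ * Y ^ 2 < 2 * σ * y * (Y + 1))
    (h3 : (2 * D + 1) * Y < 2 * (1 + (a + 1) * (h * a + r) + g)) : False := by
  have hσ1 : 1 ≤ σ := by rcases hph with ⟨h4, -, -⟩ | ⟨h4, -, -⟩ <;> linarith
  have hσ0 : 0 < σ := by linarith
  have hY0 : 0 < Y := by linarith
  rcases le_or_gt D (σ - 1) with hDs | hDs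
  · have h4 := numIIa h a r g σ D Y _ hh ha hr hr2 hph hD hDs rfl hY2
    linarith
  · rcases eq_or_lt_of_le ha with h0 | h0
    · subst h0
      rcases hph with ⟨-, -, h4⟩ | ⟨h4, h5, h6⟩
      · linarith
      · have h7 : r = 2 * h := by linarith
        have h8 := numIIb h D k Y hh hD hk (by rw [← h7]; linarith) hY
        have h9 : g ≤ 1 := by linarith
        rw [h7] at h3
        linarith
    · have ha1 : 1 ≤ a := by omega
      obtain ⟨u, hu⟩ : ∃ u, u = h * a + r := ⟨_, rfl⟩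
      obtain ⟨A, hA⟩ : ∃ A, A = 1 + (a + 1) * (h * a + r) + g := ⟨_, rfl⟩
      have hY3 : Y ≤ a := by
        by_contra hcon
        have h4 := numIIc h a r σ A D k Y u hh ha1 hr hr2 hu (by
          rw [hA, hu]
          rcases hph with ⟨h5, h6, -⟩ | ⟨h5, h6, -⟩
          · left
            refine ⟨h5, by nlinarith⟩
          · right
            refine ⟨h5, by nlinarith⟩) hkD (by linarith) hY (by omega)
        rw [hA] at h4
        linarith
      have h4 := numIId h a r σ A Y hh hr (by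
          rw [hA]
          rcases hph with ⟨h5, h6, -⟩ | ⟨h5, h6, -⟩
          · left
            refine ⟨h5, by nlinarith⟩
          · right
            refine ⟨h5, by nlinarith⟩) (by linarith) hY3
      rw [← hA] at h1 h3
      obtain ⟨c, hc⟩ : ∃ c, c = 1 + (a + 1) * (h * a + r) := ⟨_, rfl⟩
      rw [← hc] at h4 h2
      have hc0 : 0 < c := by rw [hc]; positivity
      have hF : 1 ≤ 2 * D + 1 - 2 * σ := by linarith
      have hΦ : 2 * (2 * h * a + r) + 3 - 2 * Y - 2 * σ ≤ 2 * D + 1 - 2 * σ := by linarith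
      have h5 : y * (2 * D + 1 - 2 * σ) < 2 * A - 2 * σ * Y := by linarith
      have hpos : 0 < c * Y + 2 * σ * Y ^ 2 := by positivity
      have h6 : (2 * D + 1 - 2 * σ) * (c * Y + 2 * σ * Y ^ 2) <
          (2 * D + 1 - 2 * σ) * (2 * σ * y * (Y + 1)) :=
        mul_lt_mul_of_pos_left h2 (by linarith)
      have h7 : 2 * σ * (Y + 1) * (y * (2 * D + 1 - 2 * σ)) < 2 * σ * (Y + 1) * (2 * A - 2 * σ * Y) :=
        mul_lt_mul_of_pos_left h5 (by positivity)
      have h8 : (2 * (2 * h * a + r) + 3 - 2 * Y - 2 * σ) * (c * Y + 2 * σ * Y ^ 2) ≤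
          (2 * D + 1 - 2 * σ) * (c * Y + 2 * σ * Y ^ 2) :=
        mul_le_mul_of_nonneg_right hΦ hpos.le
      nlinarith

theorem noIa (p N X y Y w σ A : ℕ) (h1 : p * w ≤ N)
    (h2 : y * N ≤ X + (2 * p * σ - 1) * (y - Y)) (h2' : X < y * (2 * p)) (h3 : X < 2 * p * A)
    (h4 : N * Y ≤ X) : w ≤ 2 * σ + 1 ∧ w * Y < 2 * A := by
  constructor
  · by_contra hcon
    push Not at hcon
    have h5 : p * (2 * σ + 2) ≤ N := (Nat.mul_le_mul_left _ hcon).trans h1
    have h6 : y * (p * (2 * σ + 2)) ≤ y * N := Nat.mul_le_mul_left _ h5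
    have h7 : (2 * p * σ - 1) * (y - Y) ≤ (2 * p * σ) * y := Nat.mul_le_mul (by omega) (by omega)
    nlinarith
  · have h5 : p * w * Y ≤ N * Y := Nat.mul_le_mul_right _ h1
    have h6 : p * (w * Y) < p * (2 * A) := by nlinarith
    exact Nat.lt_of_mul_lt_mul_left h6

theorem noIb (p N X y l Y w σ A : ℕ) (hp : 1 ≤ p) (h1 : p * w ≤ N)
    (h2 : y * N ≤ X + (2 * p * σ - 1) * (l - Y)) (hl : 2 * l ≤ y) (h2' : X < y * (2 * p))
    (h3 : X < 2 * p * A) (h4 : N * Y ≤ X) (hy : Y + 1 ≤ y) :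
    w ≤ σ + 1 ∧ w * Y < 2 * A ∧ ¬ (σ = 2 ∧ A ≤ 8 ∧ 3 ≤ w ∧ 5 ≤ Y) := by
  refine ⟨?_, ?_, ?_⟩
  · by_contra hcon
    push Not at hcon
    have h5 : p * (σ + 2) ≤ N := (Nat.mul_le_mul_left _ hcon).trans h1
    have h6 : y * (p * (σ + 2)) ≤ y * N := Nat.mul_le_mul_left _ h5
    have h7 : (2 * p * σ - 1) * (l - Y) ≤ (2 * p * σ) * l := Nat.mul_le_mul (by omega) (by omega)
    nlinarith [Nat.mul_le_mul_left (p * σ) hl]
  · have h5 : p * w * Y ≤ N * Y := Nat.mul_le_mul_right _ h1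
    have h6 : p * (w * Y) < p * (2 * A) := by nlinarith
    exact Nat.lt_of_mul_lt_mul_left h6
  · rintro ⟨rfl, hA, hw, hY⟩
    have h5 : p * 3 ≤ N := (Nat.mul_le_mul_left _ hw).trans h1
    have h6 : y * (p * 3) ≤ y * N := Nat.mul_le_mul_left _ h5
    have h7 : X < 2 * p * 8 := lt_of_lt_of_le h3 (Nat.mul_le_mul_left _ hA)
    rcases Nat.lt_or_ge l Y with h8 | h8
    · rw [Nat.sub_eq_zero_of_le h8.le, mul_zero] at h2
      have h9 : 6 * (p * 3) ≤ y * (p * 3) := Nat.mul_le_mul_right _ (by omega)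
      omega
    · obtain ⟨e, rfl⟩ : ∃ e, l = Y + e := ⟨l - Y, by omega⟩
      have h9 : (2 * p * 2 - 1) * (Y + e - Y) ≤ 4 * p * e := by
        rw [Nat.add_sub_cancel_left]
        exact Nat.mul_le_mul_right _ (by omega)
      have h10 : 2 * (Y + e) * p ≤ y * p := Nat.mul_le_mul_right _ hl
      have h11 : 5 * p ≤ Y * p := Nat.mul_le_mul_right _ hY
      nlinarith

theorem noII (p N X y Y μ j h a r g σ D k : ℕ) (hp : 1 ≤ p) (hh : 2 ≤ h) (hr : 1 ≤ r)
    (hr2 : r ≤ 2 * h) (hph : Ph h a r g σ) (hD : 2 ≤ D) (hk : 1 ≤ k) (hkD : k + D = 2 * h * a + r)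
    (hj : j = 2 * p * σ - 1)
    (h1 : p * (2 * D + 1) ≤ N) (h2 : y * N ≤ X + j * (y - Y))
    (h3 : X < 2 * p * (1 + (a + 1) * (h * a + r) + g)) (h3' : 2 * p * (1 + (a + 1) * (h * a + r)) ≤ X)
    (h4 : N * Y ≤ X) (hμ : 3 ≤ μ) (h6 : (μ - 2) * X < 2 * (j * (y - Y)) + 2 * (y * (j / Y) * (μ - 2)))
    (hY : cf (2 * h) k ≤ Y) (hYk : k + 1 ≤ Y) (hy : Y + 1 ≤ y) : False := by
  have hσ1 : 1 ≤ σ := by rcases hph with ⟨h4, -, -⟩ | ⟨h4, -, -⟩ <;> omega
  have hpσ : 1 ≤ p * σ := Nat.mul_pos hp hσ1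
  obtain ⟨c, hc⟩ : ∃ c, c = 1 + (a + 1) * (h * a + r) := ⟨_, rfl⟩
  rw [← hc] at h3 h3'
  -- (1)
  obtain ⟨e, he⟩ : ∃ e, y = Y + e := ⟨y - Y, by omega⟩
  have hye : y - Y = e := by omega
  rw [hye] at h2 h6
  have i1 : y * (2 * D + 1) < 2 * (c + g) + 2 * σ * e := by
    have h7 : y * (p * (2 * D + 1)) ≤ y * N := Nat.mul_le_mul_left _ h1
    have h8 : j * e ≤ 2 * p * σ * e := Nat.mul_le_mul_right _ (by omega)
    have h9 : p * (y * (2 * D + 1)) < p * (2 * (c + g) + 2 * σ * e) := by nlinarith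
    exact Nat.lt_of_mul_lt_mul_left h9
  -- (2)
  have i2 : c * Y < 2 * σ * (e * Y + y) := by
    obtain ⟨ν, rfl⟩ : ∃ ν, μ = ν + 3 := ⟨μ - 3, by omega⟩
    have e1 : ν + 3 - 2 = ν + 1 := by omega
    rw [e1] at h6
    have h7 : X < 2 * (j * e) + 2 * (y * (j / Y)) := by
      by_contra hcon
      push Not at hcon
      have h8 : (ν + 1) * (2 * (j * e) + 2 * (y * (j / Y))) ≤ (ν + 1) * X := Nat.mul_le_mul_left _ hcon
      nlinarith [Nat.zero_le (ν * (j * e))]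
    have h8 : j / Y * Y ≤ j := Nat.div_mul_le_self j Y
    have h9 : X * Y < (2 * (j * e) + 2 * (y * (j / Y))) * Y := Nat.mul_lt_mul_of_pos_right h7 (by omega)
    have h10 : (2 * (j * e) + 2 * (y * (j / Y))) * Y ≤ 2 * j * (e * Y + y) := by
      calc (2 * (j * e) + 2 * (y * (j / Y))) * Y = 2 * j * (e * Y) + 2 * y * (j / Y * Y) := by ring
        _ ≤ 2 * j * (e * Y) + 2 * y * j := Nat.add_le_add_left (Nat.mul_le_mul_left _ h8) _
        _ = 2 * j * (e * Y + y) := by ring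
    have h11 : 2 * j * (e * Y + y) ≤ 2 * (2 * p * σ) * (e * Y + y) :=
      Nat.mul_le_mul_right _ (Nat.mul_le_mul_left _ (by omega))
    have h12 : 2 * p * c * Y ≤ X * Y := Nat.mul_le_mul_right _ h3'
    have h13 : 2 * p * (c * Y) < 2 * p * (2 * σ * (e * Y + y)) := by
      calc 2 * p * (c * Y) = 2 * p * c * Y := by ring
        _ ≤ X * Y := h12
        _ < _ := h9
        _ ≤ _ := h10
        _ ≤ _ := h11
        _ = _ := by ring
    exact Nat.lt_of_mul_lt_mul_left h13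
  -- (3)
  have i3 : (2 * D + 1) * Y < 2 * (c + g) := by
    have h5 : p * (2 * D + 1) * Y ≤ N * Y := Nat.mul_le_mul_right _ h1
    have h6 : p * ((2 * D + 1) * Y) < p * (2 * (c + g)) := by nlinarith
    exact Nat.lt_of_mul_lt_mul_left h6
  have ht := W2_tan h (a + 1 : ℕ) k (by omega)
  have hkD' : (k : ℤ) + D = 2 * h * a + r := by exact_mod_cast hkD
  have hY' : (cf (2 * h) k : ℤ) ≤ Y := by exact_mod_cast hY
  subst he hc
  refine numII h a r g σ D k Y (Y + e : ℕ) (by exact_mod_cast hh) (by positivity)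
    (by exact_mod_cast hr) (by exact_mod_cast hr2) ?_ (by exact_mod_cast hD) (by exact_mod_cast hk)
    hkD' (by exact_mod_cast hYk) ?_ ?_ ?_ (by exact_mod_cast i3)
  · rcases hph with ⟨h1, h2, h3⟩ | ⟨h1, h2, h3⟩
    · left
      refine ⟨by exact_mod_cast h1, by exact_mod_cast h2, by exact_mod_cast h3⟩
    · right
      refine ⟨by exact_mod_cast h1, by exact_mod_cast h2, by exact_mod_cast h3⟩
  · push_cast at ht
    have hk2 : (k : ℤ) = 2 * h * a + r - D := by linarith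
    rw [hk2] at ht
    nlinarith
  · have i1' : ((Y + e : ℕ) : ℤ) * (2 * D + 1) < 2 * (1 + (a + 1) * (h * a + r) + g) + 2 * σ * e := by
      exact_mod_cast i1
    push_cast at i1' ⊢
    linarith
  · have i2' : (1 + (a + 1) * (h * a + r) : ℤ) * Y < 2 * σ * (e * Y + (Y + e : ℕ)) := by
      exact_mod_cast i2
    push_cast at i2' ⊢
    nlinarith

end Pool.Agent.SRG
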