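import Pool.Agent.SRG.Base
import Pool.Agent.SRG.Num2
import Pool.Agent.SNR.Sg

/-!
# SRG, module Nd (helper64): the gain at level `m`, `h ≥ 2`
-/

set_option autoImplicit false

noncomputable section

open Finset Pool.Agent.Helper64.Rho
open scoped Classical Pointwise

namespace Pool.Agent.SRG

open Pool.Agent.SDG Pool.Agent.SNW Pool.Agent.SNR

/-- the phase of `x` -/
theorem phase (h l x : ℕ) (hh : 2 ≤ h) (hg : 1 ≤ gr h l x) :
    ∃ a r, x = 2 * h * a + r ∧ 1 ≤ r ∧ r ≤ 2 * h ∧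
      Ph h a r (gr h l x) (a + 1 + (gr h l x - gr h l (x - 1))) ∧
      cf (2 * h) x = cf (2 * h) (x - 1) + (a + 1) ∧ gr h l (x - 1) ≤ gr h l x := by
  obtain ⟨b, hb⟩ : ∃ b, b = l - 1 := ⟨_, rfl⟩
  obtain ⟨B, hB⟩ : ∃ B, B = (2 * h - 1) * b := ⟨_, rfl⟩
  have hg1 : gr h l x = min b (x - B) := by rw [hB, hb]; rfl
  have hg2 : gr h l (x - 1) = min b (x - 1 - B) := by rw [hB, hb]; rfl
  have hx : B < x := by
    by_contra hcon
    rw [hg1] at hg
    have : x - B = 0 := by omega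
    rw [this, Nat.min_zero] at hg
    omega
  have hb1 : 1 ≤ b := by
    rw [hg1] at hg
    exact hg.trans (min_le_left _ _)
  obtain ⟨a, ha⟩ : ∃ a, a = (x - 1) / (2 * h) := ⟨_, rfl⟩
  have h1 := Nat.mul_div_le (x - 1) (2 * h)
  have h2 := Nat.lt_mul_div_succ (x - 1) (by omega : 0 < 2 * h)
  rw [← ha] at h1 h2
  have h3 : 2 * h * (a + 1) = 2 * h * a + 2 * h := by ring
  rw [h3] at h2
  refine ⟨a, x - 2 * h * a, by omega, by omega, by omega, ?_, ?_, ?_⟩
  · have hBb : B + b = 2 * h * b := by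
      obtain ⟨c, rfl⟩ : ∃ c, h = c + 1 := ⟨h - 1, by omega⟩
      have : 2 * (c + 1) - 1 = 2 * c + 1 := by omega
      rw [hB, this]
      ring
    rcases Nat.lt_or_ge (x - 1) (2 * h * b) with h4 | h4
    · -- the ramp
      right
      have h5 : gr h l x = x - B := by rw [hg1]; exact min_eq_right (by omega)
      have h6 : gr h l (x - 1) = x - 1 - B := by rw [hg2]; exact min_eq_right (by omega)
      have h7 : a + 1 ≤ b := by
        by_contra hcon
        have h8 : 2 * h * b ≤ 2 * h * a := Nat.mul_le_mul_left _ (by omega)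
        omega
      obtain ⟨c, rfl⟩ : ∃ c, b = a + 1 + c := ⟨b - a - 1, by omega⟩
      obtain ⟨d, rfl⟩ : ∃ d, h = d + 1 := ⟨h - 1, by omega⟩
      have h9 : 2 * (d + 1) - 1 = 2 * d + 1 := by omega
      rw [h9] at hB
      have h10 : B = 2 * d * a + a + 2 * d + 1 + (2 * d + 1) * c := by rw [hB]; ring
      have h11 : 2 * (d + 1) * a = 2 * d * a + 2 * a := by ring
      have h12 : 0 ≤ (2 * d + 1) * c := Nat.zero_le _
      refine ⟨by omega, by omega, hg⟩
    · left
      have h5 : gr h l x = b := by rw [hg1]; exact min_eq_left (by omega)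
      have h6 : gr h l (x - 1) = b := by rw [hg2]; exact min_eq_left (by omega)
      have h7 : b ≤ a := by
        rw [ha, Nat.le_div_iff_mul_le (by omega), mul_comm]
        exact h4
      refine ⟨by omega, by omega, by omega⟩
  · have h4 := thm_Nm1.1 (2 * h) (x - 1)
    rw [Nat.sub_add_cancel (by omega)] at h4
    rw [h4, ← ha]
    ring
  · rw [hg1, hg2]
    exact min_le_min_left _ (by omega)

theorem M1P_mono {G : Type} [AddCommGroup G] [Finite G] {g g' : ℕ} (hg : g' ≤ g) (hM : M1P G g) :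
    M1P G g' := by
  intro ι s f h0 hc hA hgn
  rcases hM ι s f h0 hc hA hgn with h1 | h1
  · left
    refine le_trans ?_ h1
    exact min_le_min_left _ (by omega)
  · exact Or.inr h1

/-- a subgroup of order `|K| / exp K` with a cyclic quotient -/
theorem l0_crk (K : Type) [AddCommGroup K] [Finite K] :
    ∃ L : AddSubgroup K, crk L ≤ 1 ∧ Nat.card L = l0 K := by
  obtain ⟨L, hL, hc⟩ := exp_quot K
  refine ⟨L, ?_, hc⟩
  obtain ⟨g, hg⟩ := hL.exists_zsmul_surjective
  obtain ⟨x, rfl⟩ := QuotientAddGroup.mk'_surjective L g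
  have key : L ⊔ AddSubgroup.closure ((({x} : Finset K) : Set K)) = ⊤ := by
    rw [coe_singleton, eq_top_iff]
    intro z _
    obtain ⟨k, hk⟩ := hg (QuotientAddGroup.mk' L z)
    have h1 : z - k • x ∈ L := by
      have h2 : (QuotientAddGroup.mk' L) (z - k • x) = 0 := by
        rw [map_sub, map_zsmul]
        exact sub_eq_zero.2 hk.symm
      rwa [QuotientAddGroup.mk'_apply, QuotientAddGroup.eq_zero_iff] at h2
    have h2 : z = (z - k • x) + k • x := by abel
    rw [h2]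
    exact AddSubgroup.add_mem_sup h1
      (AddSubgroup.zsmul_mem _ (AddSubgroup.subset_closure (Set.mem_singleton x)) k)
  exact (crk_le key).trans (by rw [card_singleton])

/-- the gain at level `m` -/
def NdSt (h l t m : ℕ) : Prop :=
  ∀ (G ι : Type) [AddCommGroup G] [Finite G] (s : Finset ι) (f : ι → G), s.card = t →
    (∀ i ∈ s, f i ≠ 0) → Cap (2 * h) s f → Aper (FS s f) → gen s f = ⊤ →
      GR m (⊥ : AddSubgroup G) (FS s f).card → m + 1 ≤ crk (⊥ : AddSubgroup G) →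
        (∀ L : AddSubgroup G, crk L ≤ m → l ≤ Nat.card L) →
          2 ^ (m - 1) * (cf (2 * h) (t + 1 - m) + gr h l (t + 1 - m)) ≤ (FS s f).card

theorem thm_NdSt (hM : ∀ (G : Type) [AddCommGroup G] [Finite G], ¬ IsAddCyclic G → M1P G (l0 G - 1))
    (h : ℕ) (hh : 2 ≤ h) (l : ℕ) (t : ℕ) : ∀ m, 1 ≤ m → NdSt h l t m := by
  induction t using Nat.strong_induction_on with
  | _ t ih =>
  intro m hm G ι _ _ s f hs h0 hcap hA hg hG hr hl
  rcases Nat.lt_or_ge m 2 with hm1 | hm2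
  · obtain rfl : m = 1 := by omega
    have hnc : ¬ IsAddCyclic G := fun h => by
      have := crk_cyc h
      omega
    obtain ⟨L, hL, hLc⟩ := l0_crk G
    have h1 := hl L hL
    have h2 := base1 G ι l (M1P_mono (by omega) (hM G hnc)) h hh s f h0 hcap hA hg
    rw [hs] at h2
    simpa using h2
  obtain ⟨M, rfl⟩ : ∃ M, m = M + 2 := ⟨m - 2, by omega⟩
  have e1 : M + 2 - 1 = M + 1 := by omega
  have hSm := thm_Sm h hh (M + 2) (by omega) G ι s f h0 hcap hA hg hG
  rw [e1, hs] at hSm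
  rw [e1]
  have hbt : (⊥ : AddSubgroup G) ≠ ⊤ := by
    intro h
    rw [h, crk_top] at hr
    omega
  obtain ⟨x, hx⟩ : ∃ x, x = t + 1 - (M + 2) := ⟨_, rfl⟩
  rw [← hx] at hSm ⊢
  rcases Nat.eq_zero_or_pos (gr h l x) with hg0 | hg0
  · rw [hg0, add_zero]
    exact hSm
  -- drops
  by_cases hdrop : ∃ i ∈ s, f i ∉ gen (s.erase i) f
  · obtain ⟨i, hi, hd⟩ := hdrop
    have h2 : (FS s f).card = 2 * (FS (s.erase i) f).card := (all_Ba1 G ι f).2.2.2.1 s i hi hd
    have ht : (s.erase i).card = t - 1 := by rw [card_erase_of_mem hi, hs]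
    have ht1 : 1 ≤ t := by
      rw [← hs]
      exact card_pos.2 ⟨i, hi⟩
    have hAe := (all_Ba1 G ι f).2.1 s (s.erase i) (erase_subset _ _) hA
    obtain ⟨K1, hK1⟩ : ∃ K1, K1 = gen (s.erase i) f := ⟨_, rfl⟩
    have hz : K1 ⊔ AddSubgroup.zmultiples (f i) = ⊤ := by
      rw [eq_top_iff, ← hg]
      conv_lhs => unfold gen
      rw [AddSubgroup.closure_le]
      rintro _ ⟨k, hk, rfl⟩
      rcases eq_or_ne k i with rfl | hki
      · exact AddSubgroup.mem_sup_right (AddSubgroup.mem_zmultiples _)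
      · refine AddSubgroup.mem_sup_left ?_
        rw [hK1]
        exact P1_mem_gen (mem_erase.2 ⟨hki, mem_coe.1 hk⟩)
    obtain ⟨H, _, _, φ, f1, hφ, hφr, hf1, hc, hg1⟩ := res (s.erase i) f K1 hK1.symm
    rw [← hφr] at hz
    have h01 := ne_res φ _ f f1 hf1 (fun k hk => h0 k (erase_subset _ _ hk))
    have hA1 := aper_res φ hφ _ f f1 hf1 hAe
    have hcap1 : Cap (2 * h) (s.erase i) f1 := by
      intro x
      refine (card_le_card ?_).trans (hcap (φ x))
      intro k hk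
      obtain ⟨hk1, hk2⟩ := mem_filter.1 hk
      refine mem_filter.2 ⟨erase_subset _ _ hk1, ?_⟩
      rw [← hf1 k hk1, ← map_neg]
      rcases hk2 with hk2 | hk2
      · left
        rw [hk2]
      · right
        rw [hk2]
    have hcm : ∀ L : AddSubgroup H, Nat.card (L.map φ) = Nat.card L := fun L =>
      AddSubgroup.card_map_of_injective hφ
    have hG1 : GR (M + 1) (⊥ : AddSubgroup H) (FS (s.erase i) f1).card := by
      intro L _ hL
      have h3 := crk_sub φ (f i) hz L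
      have h4 := hG (L.map φ) bot_le (by omega)
      rw [hcm, h2] at h4
      rw [hc]
      have h6 : Nat.card L * 2 ^ crk (L.map φ) ≤ 2 * (Nat.card L * 2 ^ crk L) := by
        calc Nat.card L * 2 ^ crk (L.map φ) ≤ Nat.card L * 2 ^ (crk L + 1) :=
              Nat.mul_le_mul_left _ (Nat.pow_le_pow_right (by norm_num) h3)
          _ = 2 * (Nat.card L * 2 ^ crk L) := by ring
      omega
    have hr1 : M + 1 + 1 ≤ crk (⊥ : AddSubgroup H) := by
      have h3 := crk_sub φ (f i) hz ⊥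
      rw [AddSubgroup.map_bot] at h3
      omega
    have hl1 : ∀ L : AddSubgroup H, crk L ≤ M + 1 → l ≤ Nat.card L := by
      intro L hL
      have h3 := crk_sub φ (f i) hz L
      rw [← hcm]
      exact hl _ (by omega)
    have h3 := ih (t - 1) (by omega) (M + 1) (by omega) H ι (s.erase i) f1 ht h01 hcap1 hA1 hg1 hG1
      hr1 hl1
    rw [hc, Nat.add_sub_cancel] at h3
    have e2 : t - 1 + 1 - (M + 1) = x := by omega
    rw [e2] at h3
    rw [h2, pow_succ]
    calc 2 ^ M * 2 * (cf (2 * h) x + gr h l x) = 2 * (2 ^ M * (cf (2 * h) x + gr h l x)) := by ring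
      _ ≤ _ := Nat.mul_le_mul_left _ h3
  push Not at hdrop
  have hge : ∀ i ∈ s, gen (s.erase i) f = ⊤ := by
    intro i hi
    rw [← hg]
    exact (all_Ba1 G ι f).2.2.2.2.2.1 s i hi (hdrop i hi)
  have hcard : ∀ i ∈ s, (s.erase i).card = t - 1 := by
    intro i hi
    rw [card_erase_of_mem hi, hs]
  have hAe : ∀ i, Aper (FS (s.erase i) f) := fun i =>
    (all_Ba1 G ι f).2.1 s (s.erase i) (erase_subset _ _) hA
  have h0e : ∀ i, ∀ k ∈ s.erase i, f k ≠ 0 := fun i k hk => h0 k (erase_subset _ _ hk)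
  have hce : ∀ i, Cap (2 * h) (s.erase i) f := fun i x =>
    (card_le_card (filter_subset_filter _ (erase_subset _ _))).trans (hcap x)
  have hmono : ∀ i, (FS (s.erase i) f).card ≤ (FS s f).card := fun i =>
    card_le_card (FS_mono (erase_subset _ _) f)
  by_contra hcon
  push Not at hcon
  have hte : crk (⊥ : AddSubgroup G) + 1 ≤ t := by
    have h3 := crk_nodrop hbt hge hg
    have h4 : (s.filter fun i => f i ∉ (⊥ : AddSubgroup G)).card ≤ t := by
      rw [← hs]
      exact card_filter_le _ _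
    omega
  obtain ⟨a, r, hxa, hr1, hr2, hph, hstep, hgm⟩ := phase h l x hh hg0
  have hcx := cf_val h a r (by omega) hr2
  rw [← hxa] at hcx
  obtain ⟨g, hgd⟩ : ∃ g, g = gr h l x := ⟨_, rfl⟩
  obtain ⟨σ, hσ⟩ : ∃ σ, σ = a + 1 + (gr h l x - gr h l (x - 1)) := ⟨_, rfl⟩
  rw [← hσ, ← hgd] at hph
  obtain ⟨q, hq⟩ : ∃ q, q = 2 ^ M := ⟨_, rfl⟩
  have hq0 : 1 ≤ q := hq ▸ Nat.one_le_two_pow
  have p1 : 2 ^ (M + 1) = 2 * q := by rw [hq]; ring
  obtain ⟨X, hX⟩ : ∃ X, X = (FS s f).card := ⟨_, rfl⟩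
  rw [← hX, p1] at hcon
  rw [← hX, p1] at hSm
  have hσ1 : 1 ≤ σ := by omega
  have hlow : ∀ i ∈ s, 2 * q * (cf (2 * h) (x - 1) + gr h l (x - 1)) ≤ (FS (s.erase i) f).card := by
    intro i hi
    have h3 := ih (t - 1) (by omega) (M + 2) (by omega) G ι (s.erase i) f (hcard i hi) (h0e i)
      (hce i) (hAe i) (hge i hi) (GR_mono le_rfl (hmono i) hG) hr hl
    rw [e1, p1] at h3
    have e2 : t - 1 + 1 - (M + 2) = x - 1 := by omega
    rwa [e2] at h3
  have hqτ : 1 ≤ 2 * q * σ := by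
    have := Nat.mul_le_mul hq0 hσ1
    nlinarith
  have hj : ∀ k ∈ s, lam (FS s f) (f k) ≤ 2 * q * σ - 1 := by
    intro k hk
    have h3 := (all_Ba1 G ι f).2.2.1 s k hk
    have h4 := hlow k hk
    have h5 : cf (2 * h) x + gr h l x = (cf (2 * h) (x - 1) + gr h l (x - 1)) + σ := by omega
    rw [h5, mul_add] at hcon
    rw [← hX] at h3
    omega
  rw [hcx, ← hgd] at hcon
  rw [hcx] at hSm
  obtain ⟨R, H', _, _, π, hπs, hπk, hRt, hC, q0, qA, qg, qG, hmR, hRr, d2, d3, d4, d6, d7, hek,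
    hcr, hlw, μ, hμ, hD⟩ := setup h0 hA hg hge hbt (M + 1) _ (by omega) hj hG
  have hsub : (s.filter fun i => f i ∈ R) ⊆ s := filter_subset _ _
  have hYc : cf (2 * h) (s.filter fun i => f i ∈ R).card ≤
      (FS (s.filter fun i => f i ∈ R) f).card :=
    (all_main _).2 h hh G ι (s.filter fun i => f i ∈ R) f rfl (fun k hk => h0 k (hsub hk))
      (fun x => (card_le_card (filter_subset_filter _ hsub)).trans (hcap x))
      ((all_Ba1 G ι f).2.1 s _ hsub hA)
  obtain ⟨e, he⟩ : ∃ e, e = (s.filter fun i => f i ∉ R).card := ⟨_, rfl⟩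
  obtain ⟨k, hk⟩ : ∃ k, k = (s.filter fun i => f i ∈ R).card := ⟨_, rfl⟩
  obtain ⟨y, hy⟩ : ∃ y, y = Nat.card R := ⟨_, rfl⟩
  obtain ⟨Y, hY⟩ : ∃ Y, Y = (FS (s.filter fun i => f i ∈ R) f).card := ⟨_, rfl⟩
  obtain ⟨N, hN⟩ : ∃ N, N = (FS (s.filter fun i => f i ∉ R) (fun i => π (f i))).card := ⟨_, rfl⟩
  rw [← hN, ← hy, ← hY, ← hX] at d2
  rw [← hN, ← hY, ← hX] at d3
  rw [← hk, ← hY] at d4
  rw [← hk] at d6
  rw [← hY, ← hy] at d7
  rw [← he, ← hk, hs] at hek
  rw [← he] at hcr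
  rw [← hy, ← hX, p1] at hlw
  rw [← hk, ← hY] at hYc
  rw [← hX, ← hy, ← hY] at hD
  rcases Nat.lt_or_ge (crk R) (M + 2) with hR1 | hR1
  · have h3 := thm_SIm (M + 1) (by omega) H' ι _ _ q0 qA qg qG
    rw [← he, ← hN, Nat.add_sub_cancel, ← hq] at h3
    have hlw' := hlw (by omega)
    obtain ⟨w, hw⟩ : ∃ w, w = e + 2 - (M + 1) := ⟨_, rfl⟩
    rw [← hw] at h3
    have hw3 : 3 ≤ w := by omega
    have hkw : k + w = 2 * h * a + r + 2 := by omega
    by_cases hL : crk (gen (s.filter fun i => f i ∈ R) f) + 2 ≤ crk (⊥ : AddSubgroup G)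
    · obtain ⟨h5, h6⟩ := in_noncyc (s.filter fun i => f i ∈ R) f (fun k hk => h0 k (hsub hk))
        ((all_Ba1 G ι f).2.1 s _ hsub hA) hL
      rw [← hk, ← hY] at h5 h6
      obtain ⟨n1, n2⟩ := noIa q N X y Y w σ _ h3 d2 hlw' hcon d3
      have n3 := numIa h a r g σ w k Y hh hr1 hr2 hph hw3 n1 hkw d6 hYc h5 h6
      omega
    · obtain ⟨L, hLd⟩ : ∃ L, L = gen (s.filter fun i => f i ∈ R) f := ⟨_, rfl⟩
      rw [← hLd] at hL
      have hLR : L ≤ R := hLd ▸ P1_gen_le s f R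
      have hfil : (s.filter fun i => f i ∈ L) = s.filter fun i => f i ∈ R := by
        rw [hLd]
        exact P1_filter s f R
      have hne : L ≠ R := by
        rintro rfl
        omega
      have h6 : 2 * Nat.card L ≤ y := by
        obtain ⟨c, hc⟩ := AddSubgroup.card_dvd_of_le hLR
        have h7 : 0 < Nat.card L := Nat.card_pos
        have h8 : c ≠ 1 := by
          rintro rfl
          rw [mul_one] at hc
          apply hne
          apply SetLike.coe_injective
          exact Set.eq_of_subset_of_ncard_le (fun x hx => hLR hx) hc.le (Set.toFinite _)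
        have h9 : c ≠ 0 := by
          rintro rfl
          have : 0 < Nat.card R := Nat.card_pos
          omega
        rw [hy, hc, mul_comm]
        exact Nat.mul_le_mul_left _ (by omega)
      have h7 := (all_Pc G ι s f L _ h0 hA (by rw [hfil]; exact hLd.symm)
        (fun i hi _ => hj i hi)).1
      rw [hfil, hLd, ← Cd_st hC, ← q_card s f hπk, ← hLd, ← hN, ← hy, ← hY, ← hX] at h7
      obtain ⟨n1, n2, n3⟩ := noIb q N X y (Nat.card L) Y w σ _ hq0 h3 h7 h6 hlw' hcon d3 d7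
      rcases numIb h a r g σ w k Y hh hr1 hr2 hph hw3 n1 hkw hYc d4 with n4 | n4
      · omega
      · obtain ⟨rfl, rfl, rfl, rfl, rfl, rfl⟩ := n4
        exact n3 ⟨rfl, by norm_num, hw3, by omega⟩
  · have h3 := thm_LINm (M + 2) (by omega) H' ι _ _ q0 qA qg (by omega) qG
    rw [← he, ← hN, e1, p1] at h3
    obtain ⟨D, hDd⟩ : ∃ D, D = e - (M + 1) := ⟨_, rfl⟩
    have e2 : 2 * e + 3 - 2 * (M + 2) = 2 * D + 1 := by omega
    rw [e2] at h3
    have h3' : q * (2 * D + 1) ≤ N := by nlinarith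
    exact noII q N X y Y μ _ h a r g σ D k hq0 hh hr1 hr2 hph (by omega) d6 (by omega) rfl h3' d2
      hcon hSm d3 hμ hD hYc d4 d7

end Pool.Agent.SRG
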