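import Pool.Agent.SRG.Defs

/-!
# SRG, module Num (helper64): numbers, `h ≥ 2`
-/

set_option autoImplicit false

noncomputable section

open Finset Pool.Agent.SDG Pool.Agent.SNW

namespace Pool.Agent.SRG

theorem cf_val (h a r : ℕ) (hh : 1 ≤ h) (hr : r ≤ 2 * h) :
    cf (2 * h) (2 * h * a + r) = 1 + (a + 1) * (h * a + r) := by
  have h1 := thm_Nm1.2.1 (2 * h) a r (by omega) hr
  have h2 : 2 + 2 * h * a * (a + 1) + 2 * r * (a + 1) = 2 * (1 + (a + 1) * (h * a + r)) := by ring
  rw [h2] at h1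
  omega

theorem cf_quad (h k : ℕ) (hh : 1 ≤ h) : 4 * h + k * (k + 2 * h) ≤ 4 * h * cf (2 * h) k := by
  have hr : k % (2 * h) ≤ 2 * h := (Nat.mod_lt _ (by omega)).le
  have hu : 2 * h * (k / (2 * h)) + k % (2 * h) = k := Nat.div_add_mod k _
  have h1 := cf_val h (k / (2 * h)) (k % (2 * h)) hh hr
  rw [hu] at h1
  generalize k / (2 * h) = b at h1 hu
  generalize k % (2 * h) = r at h1 hu hr
  rw [h1, ← hu]
  obtain ⟨u, hu⟩ : ∃ u, 2 * h = r + u := ⟨2 * h - r, by omega⟩
  have h2 : r * r ≤ r * (2 * h) := Nat.mul_le_mul_left _ hr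
  nlinarith

theorem conc3 (B C D w W : ℤ) (h3 : 0 ≤ 27 - 9 * B + 3 * C - D)
    (hW : 0 ≤ W ^ 3 - B * W ^ 2 + C * W - D) (hw : 3 ≤ w) (hwW : w ≤ W) (hB : 3 + w + W ≤ B) :
    0 ≤ w ^ 3 - B * w ^ 2 + C * w - D := by
  rcases eq_or_lt_of_le hw with h1 | h1
  · rw [← h1]
    linarith
  · have h2 : (W - 3) * (w ^ 3 - B * w ^ 2 + C * w - D) = (W - w) * (27 - 9 * B + 3 * C - D) +
        (w - 3) * (W ^ 3 - B * W ^ 2 + C * W - D) + (w - 3) * (W - w) * (W - 3) * (B - 3 - w - W) := by
      ring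
    have h3' : 0 ≤ (W - 3) * (w ^ 3 - B * w ^ 2 + C * w - D) := by
      rw [h2]
      have e1 : 0 ≤ W - w := by linarith
      have e2 : 0 ≤ w - 3 := by linarith
      have e3 : 0 ≤ W - 3 := by linarith
      have e4 : 0 ≤ B - 3 - w - W := by linarith
      positivity
    exact nonneg_of_mul_nonneg_right h3' (by linarith)

/-- the two phases -/
def Ph (h a r g σ : ℕ) : Prop :=
  (σ = a + 1 ∧ g ≤ a ∧ 1 ≤ a) ∨ (σ = a + 2 ∧ g + 2 * h ≤ a + 1 + r ∧ 1 ≤ g)

/-- the cubic at `w` from its values at the ends -/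
theorem quadI (h a r g σ w k Y : ℤ) (hh : 2 ≤ h) (ha : 0 ≤ a) (hr : 1 ≤ r) (hr2 : r ≤ 2 * h)
    (hph : (σ = a + 1 ∧ g ≤ a ∧ 1 ≤ a) ∨ (σ = a + 2 ∧ g + 2 * h ≤ a + 1 + r ∧ 1 ≤ g))
    (hbig : 4 ≤ a ∨ 3 ≤ h) (hw : 3 ≤ w) (hwW : w ≤ 2 * σ + 1) (hk : k + w = 2 * h * a + r + 2)
    (hY : 4 * h + k * (k + 2 * h) ≤ 4 * h * Y) : 2 * (1 + (a + 1) * (h * a + r) + g) ≤ w * Y := by
  obtain ⟨X, hX⟩ : ∃ X, X = 2 * h * a + r + 2 := ⟨_, rfl⟩
  have hk' : k = X - w := by linarith
  have key : 0 ≤ w ^ 3 - (2 * X + 2 * h) * w ^ 2 + (X * (X + 2 * h) + 4 * h) * w -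
      8 * h * (1 + (a + 1) * (h * a + r) + g) := by
    rcases hph with ⟨hσ, hg, ha1⟩ | ⟨hσ, hg, hg1⟩
    · obtain ⟨v, hv⟩ : ∃ v, v = a - g := ⟨_, rfl⟩
      have hv0 : 0 ≤ v := by linarith
      obtain ⟨q, hq⟩ : ∃ q, q = r - 1 := ⟨_, rfl⟩
      have hq0 : 0 ≤ q := by linarith
      have hr' : r = q + 1 := by linarith
      have hg' : g = a - v := by linarith
      subst hX hσ hr' hg'
      apply conc3 _ _ _ w (2 * (a + 1) + 1) _ _ hw hwW (by nlinarith)
      · rcases le_or_gt 4 a with h4 | h4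
        · obtain ⟨b, hb⟩ : ∃ b, b = a - 4 := ⟨_, rfl⟩
          obtain ⟨d, hd⟩ : ∃ d, d = h - 2 := ⟨_, rfl⟩
          have hb0 : 0 ≤ b := by linarith
          have hd0 : 0 ≤ d := by linarith
          have hb' : a = b + 4 := by linarith
          have hd' : h = d + 2 := by linarith
          subst hb' hd'
          ring_nf
          positivity
        · have h3 : 3 ≤ h := hbig.resolve_left (by linarith)
          obtain ⟨d, hd⟩ : ∃ d, d = h - 3 := ⟨_, rfl⟩
          have hd0 : 0 ≤ d := by linarith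
          have hd' : h = d + 3 := by linarith
          subst hd'
          have : a = 1 ∨ a = 2 ∨ a = 3 := by omega
          rcases this with rfl | rfl | rfl
          all_goals
            ring_nf
            positivity
      · rcases le_or_gt 4 a with h4 | h4
        · obtain ⟨b, hb⟩ : ∃ b, b = a - 4 := ⟨_, rfl⟩
          obtain ⟨d, hd⟩ : ∃ d, d = h - 2 := ⟨_, rfl⟩
          have hb0 : 0 ≤ b := by linarith
          have hd0 : 0 ≤ d := by linarith
          have hb' : a = b + 4 := by linarith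
          have hd' : h = d + 2 := by linarith
          subst hb' hd'
          ring_nf
          positivity
        · have h3 : 3 ≤ h := hbig.resolve_left (by linarith)
          obtain ⟨d, hd⟩ : ∃ d, d = h - 3 := ⟨_, rfl⟩
          have hd0 : 0 ≤ d := by linarith
          have hd' : h = d + 3 := by linarith
          subst hd'
          have : a = 1 ∨ a = 2 ∨ a = 3 := by omega
          rcases this with rfl | rfl | rfl
          all_goals
            ring_nf
            positivity
    · obtain ⟨v, hv⟩ : ∃ v, v = a + 1 + r - 2 * h - g := ⟨_, rfl⟩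
      have hv0 : 0 ≤ v := by linarith
      have hg' : g = a + 1 + r - 2 * h - v := by linarith
      subst hX hσ hg'
      apply conc3 _ _ _ w (2 * (a + 2) + 1) _ _ hw hwW (by nlinarith)
      · rcases le_or_gt 4 a with h4 | h4
        · obtain ⟨b, hb⟩ : ∃ b, b = a - 4 := ⟨_, rfl⟩
          obtain ⟨d, hd⟩ : ∃ d, d = h - 2 := ⟨_, rfl⟩
          obtain ⟨q, hq⟩ : ∃ q, q = r - 1 := ⟨_, rfl⟩
          have hq0 : 0 ≤ q := by linarith
          have hr' : r = q + 1 := by linarith
          have hb0 : 0 ≤ b := by linarith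
          have hd0 : 0 ≤ d := by linarith
          have hb' : a = b + 4 := by linarith
          have hd' : h = d + 2 := by linarith
          subst hb' hd' hr'
          ring_nf
          positivity
        · have h3 : 3 ≤ h := hbig.resolve_left (by linarith)
          obtain ⟨d, hd⟩ : ∃ d, d = h - 3 := ⟨_, rfl⟩
          have hd0 : 0 ≤ d := by linarith
          have hd' : h = d + 3 := by linarith
          obtain ⟨e, he⟩ : ∃ e, e = r - 2 * h + a := ⟨_, rfl⟩
          have he0 : 0 ≤ e := by linarith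
          have hr' : r = 2 * h - a + e := by linarith
          subst hr' hd'
          have : a = 0 ∨ a = 1 ∨ a = 2 ∨ a = 3 := by omega
          rcases this with rfl | rfl | rfl | rfl
          all_goals
            ring_nf
            positivity
      · rcases le_or_gt 4 a with h4 | h4
        · obtain ⟨b, hb⟩ : ∃ b, b = a - 4 := ⟨_, rfl⟩
          obtain ⟨d, hd⟩ : ∃ d, d = h - 2 := ⟨_, rfl⟩
          obtain ⟨q, hq⟩ : ∃ q, q = r - 1 := ⟨_, rfl⟩
          have hq0 : 0 ≤ q := by linarith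
          have hr' : r = q + 1 := by linarith
          have hb0 : 0 ≤ b := by linarith
          have hd0 : 0 ≤ d := by linarith
          have hb' : a = b + 4 := by linarith
          have hd' : h = d + 2 := by linarith
          subst hb' hd' hr'
          ring_nf
          positivity
        · have h3 : 3 ≤ h := hbig.resolve_left (by linarith)
          obtain ⟨d, hd⟩ : ∃ d, d = h - 3 := ⟨_, rfl⟩
          have hd0 : 0 ≤ d := by linarith
          have hd' : h = d + 3 := by linarith
          obtain ⟨e, he⟩ : ∃ e, e = r - 2 * h + a := ⟨_, rfl⟩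
          have he0 : 0 ≤ e := by linarith
          have hr' : r = 2 * h - a + e := by linarith
          subst hr' hd'
          have : a = 0 ∨ a = 1 ∨ a = 2 ∨ a = 3 := by omega
          rcases this with rfl | rfl | rfl | rfl
          all_goals
            ring_nf
            positivity
  have h1 : 8 * h * (1 + (a + 1) * (h * a + r) + g) ≤ w * (4 * h + k * (k + 2 * h)) := by
    rw [hk']
    nlinarith
  have h2 : w * (4 * h + k * (k + 2 * h)) ≤ w * (4 * h * Y) :=
    mul_le_mul_of_nonneg_left hY (by linarith)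
  have h3 : 4 * h * (2 * (1 + (a + 1) * (h * a + r) + g)) ≤ 4 * h * (w * Y) := by nlinarith
  exact le_of_mul_le_mul_left h3 (by linarith)

end Pool.Agent.SRG
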